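import Pool.Agent.UMG.StmtsB

set_option autoImplicit false

namespace Pool.Agent.UMG.B.H4

open Finset Pool.Agent.UMG Pool.Agent.UMG.B

theorem isMt_map {j : ℕ} (hj : 0 < j) (h2 : 2 ∣ j) {H : Type} {g : Equiv.Perm H} {m : H → H}
    (hm : IsMt g m) : IsMt (Equiv.sumCongr (finRotate j) g)
      (Sum.map (⇑((finRotate j) ^ (j / 2) : Equiv.Perm (Fin j))) m) := by
  refine ⟨?_, ?_, ?_⟩
  · rintro (t | h)
    · refine congrArg Sum.inl (Fin.ext ?_)
      rw [finRotate_pow_val, finRotate_pow_val, Nat.mod_add_mod]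
      have h3 : (t : ℕ) + j / 2 + j / 2 = t + j := by
        obtain ⟨i, rfl⟩ := h2
        omega
      rw [h3, Nat.add_mod_right, Nat.mod_eq_of_lt t.2]
    · exact congrArg Sum.inr (hm.inv h)
  · rintro (t | h) h1
    · have h3 : ((finRotate j) ^ (j / 2) : Equiv.Perm (Fin j)) t = t := Sum.inl.inj h1
      have h4 := congrArg Fin.val h3
      rw [finRotate_pow_val] at h4
      obtain ⟨i, rfl⟩ := h2
      have h5 : 2 * i / 2 = i := by omega
      rw [h5] at h4
      have ht := t.2
      rcases Nat.lt_or_ge ((t : ℕ) + i) (2 * i) with h6 | h6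
      · rw [Nat.mod_eq_of_lt h6] at h4
        omega
      · rw [Nat.mod_eq_sub_mod h6, Nat.mod_eq_of_lt (by omega)] at h4
        omega
    · exact hm.nfx h (Sum.inr.inj h1)
  · rintro (t | h)
    · refine congrArg Sum.inl ?_
      have h3 : ((finRotate j) ^ (j / 2) * finRotate j : Equiv.Perm (Fin j)) =
          finRotate j * (finRotate j) ^ (j / 2) := (Commute.refl (finRotate j)).pow_left _
      exact congrArg (fun σ : Equiv.Perm (Fin j) => σ t) h3
    · exact congrArg Sum.inr (hm.com h)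

theorem slm : SlmStmt := by
  intro j hj H g
  obtain ⟨r, hr⟩ : ∃ r : Equiv.Perm (Fin j), r = finRotate j := ⟨_, rfl⟩
  let f : {_m : Mt g // 2 ∣ j} → {m : Mt (Equiv.sumCongr (finRotate j) g) //
      ∃ s, m.1 (Sum.inl ⟨0, hj⟩) = Sum.inl s} :=
    fun x => ⟨⟨Sum.map (⇑((finRotate j) ^ (j / 2) : Equiv.Perm (Fin j))) x.1.1,
      isMt_map hj x.2 x.1.2⟩, ⟨_, rfl⟩⟩
  have hinj : Function.Injective f := by
    intro x y hxy
    refine Subtype.ext (Subtype.ext (funext fun h => ?_))
    have h1 : (f x).1.1 (Sum.inr h) = (f y).1.1 (Sum.inr h) := by rw [hxy]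
    exact Sum.inr.inj h1
  have hsurj : Function.Surjective f := by
    rintro ⟨⟨m, hm⟩, s, hs⟩
    have hs' : m (Sum.inl ⟨0, hj⟩) = Sum.inl s := hs
    have h1 : ∀ k : ℕ, m (Sum.inl (((finRotate j) ^ k : Equiv.Perm (Fin j)) ⟨0, hj⟩)) =
        Sum.inl (((finRotate j) ^ k : Equiv.Perm (Fin j)) s) := by
      intro k
      induction k with
      | zero => exact hs'
      | succ k ih =>
        rw [pow_succ', Equiv.Perm.mul_apply, Equiv.Perm.mul_apply]
        have h2 := hm.com (Sum.inl (((finRotate j) ^ k : Equiv.Perm (Fin j)) ⟨0, hj⟩))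
        rw [ih] at h2
        exact h2
    have h2 : ∀ t : Fin j, m (Sum.inl t) = Sum.inl (((finRotate j) ^ (t : ℕ) :
        Equiv.Perm (Fin j)) s) := by
      intro t
      have h3 : ((finRotate j) ^ (t : ℕ) : Equiv.Perm (Fin j)) ⟨0, hj⟩ = t := by
        refine Fin.ext ?_
        rw [finRotate_pow_val, Nat.zero_add, Nat.mod_eq_of_lt t.2]
      have h4 := h1 t
      rw [h3] at h4
      exact h4
    have h3 : ((s : ℕ) + s) % j = 0 := by
      have h4 := hm.inv (Sum.inl ⟨0, hj⟩)
      rw [hs', h2 s] at h4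
      have h5 := congrArg Fin.val (Sum.inl.inj h4)
      rw [finRotate_pow_val] at h5
      exact h5
    have h4 : (s : ℕ) ≠ 0 := by
      intro h5
      refine hm.nfx (Sum.inl ⟨0, hj⟩) ?_
      rw [hs']
      exact congrArg Sum.inl (Fin.ext h5)
    have h5 : (s : ℕ) + s = j := by
      have hsj := s.2
      rcases Nat.lt_or_ge ((s : ℕ) + s) j with h6 | h6
      · rw [Nat.mod_eq_of_lt h6] at h3
        omega
      · rw [Nat.mod_eq_sub_mod h6, Nat.mod_eq_of_lt (by omega)] at h3
        omega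
    have h2j : 2 ∣ j := ⟨s, by omega⟩
    have hs2 : j / 2 = s := by omega
    have h6 : ∀ t : Fin j, m (Sum.inl t) = Sum.inl (((finRotate j) ^ (j / 2) :
        Equiv.Perm (Fin j)) t) := by
      intro t
      rw [h2 t]
      refine congrArg Sum.inl (Fin.ext ?_)
      rw [finRotate_pow_val, finRotate_pow_val, hs2, Nat.add_comm]
    have h7 : ∀ h : H, ∃ h' : H, m (Sum.inr h) = Sum.inr h' := by
      intro h
      rcases h8 : m (Sum.inr h) with t | h'
      · exfalso
        have h9 := hm.inv (Sum.inr h)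
        rw [h8, h6 t] at h9
        cases h9
      · exact ⟨h', rfl⟩
    choose m' hm' using h7
    have hM : IsMt g m' := by
      refine ⟨fun h => ?_, fun h h8 => ?_, fun h => ?_⟩
      · have h9 := hm.inv (Sum.inr h)
        rw [hm', hm'] at h9
        exact Sum.inr.inj h9
      · refine hm.nfx (Sum.inr h) ?_
        rw [hm', h8]
      · have h9 := hm.com (Sum.inr h)
        have h10 : m (Sum.inr (g h)) = Equiv.sumCongr (finRotate j) g (m (Sum.inr h)) := h9
        rw [hm', hm'] at h10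
        exact Sum.inr.inj h10
    refine ⟨⟨⟨m', hM⟩, h2j⟩, ?_⟩
    refine Subtype.ext (Subtype.ext (funext fun x => ?_))
    rcases x with t | h
    · exact (h6 t).symm
    · exact (hm' h).symm
  refine ⟨(Equiv.ofBijective f ⟨hinj, hsurj⟩).symm, fun m => ?_⟩
  have h1 : f ((Equiv.ofBijective f ⟨hinj, hsurj⟩).symm m) = m :=
    Equiv.ofBijective_apply_symm_apply f ⟨hinj, hsurj⟩ m
  have h2 : (f ((Equiv.ofBijective f ⟨hinj, hsurj⟩).symm m)).1.1 = m.1.1 := by rw [h1]
  exact h2.symm

end Pool.Agent.UMG.B.H4
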