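import Pool.Agent.UMG.StmtsA

set_option autoImplicit false

namespace Pool.Agent.UMG.A.H4

open Finset Pool.Agent.UMG

/-- the factors -/
noncomputable def af (j i : ℕ) : ℝ := Real.sqrt (j * i) + (if 2 ∣ j then 1 / 2 else 0)

noncomputable def pc (j c : ℕ) : ℝ := ∏ i ∈ range c, af j (i + 1)

theorem pc_succ (j c : ℕ) : pc j (c + 1) = pc j c * af j (c + 1) := by
  unfold pc
  rw [prod_range_succ]

theorem af_one {j i : ℕ} (hj : 1 ≤ j) : 1 ≤ af j (i + 1) := by
  unfold af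
  have h1 : (1 : ℝ) ≤ Real.sqrt (j * ((i + 1 : ℕ) : ℝ)) := by
    rw [Real.one_le_sqrt]
    have h2 : (1 : ℝ) ≤ (j : ℝ) := by exact_mod_cast hj
    have h3 : (1 : ℝ) ≤ ((i + 1 : ℕ) : ℝ) := by
      push_cast
      have : (0 : ℝ) ≤ (i : ℝ) := Nat.cast_nonneg i
      linarith
    nlinarith
  have h2 : (0 : ℝ) ≤ (if 2 ∣ j then 1 / 2 else 0) := by
    split_ifs <;> norm_num
  linarith

theorem pc_pos {j : ℕ} (hj : 1 ≤ j) (c : ℕ) : 0 < pc j c := by
  unfold pc
  exact prod_pos fun i _ => lt_of_lt_of_le one_pos (af_one hj)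

theorem fh_le (h1 : SqbStmt) {M j c : ℕ} (hj : 1 ≤ j) (hc : c ≤ M) : Fh M j c ≤ 3 * pc j c := by
  have hM : (0 : ℝ) < (M : ℝ) + 1 := by positivity
  have h2 : Fh M j c ≤ ∏ i ∈ range c, (af j (i + 1) * (1 + 1 / ((M : ℝ) + 1))) := by
    unfold Fh
    refine prod_le_prod (fun i _ => ?_) fun i _ => ?_
    · have h3 := (h1 M j (i + 1)).1
      have h4 : (0 : ℝ) ≤ af j (i + 1) := le_trans zero_le_one (af_one hj)
      unfold af at h4
      exact h4.trans h3.le
    · have h3 := (h1 M j (i + 1)).2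
      have h4 : 1 ≤ af j (i + 1) := af_one hj
      have h5 : 0 < 1 / ((M : ℝ) + 1) := by positivity
      have h6 : 1 * (1 / ((M : ℝ) + 1)) ≤ af j (i + 1) * (1 / ((M : ℝ) + 1)) :=
        mul_le_mul_of_nonneg_right h4 h5.le
      unfold af at h6 ⊢
      linarith
  rw [prod_mul_distrib, prod_const, card_range] at h2
  have h3 : (1 + 1 / ((M : ℝ) + 1)) ^ c ≤ 3 := by
    have h4 : 1 + 1 / ((M : ℝ) + 1) ≤ Real.exp (1 / ((M : ℝ) + 1)) := by
      have := Real.add_one_le_exp (1 / ((M : ℝ) + 1))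
      linarith
    have h5 : (1 + 1 / ((M : ℝ) + 1)) ^ c ≤ Real.exp (1 / ((M : ℝ) + 1)) ^ c :=
      pow_le_pow_left₀ (by positivity) h4 c
    rw [← Real.exp_nat_mul] at h5
    have h6 : (c : ℝ) * (1 / ((M : ℝ) + 1)) ≤ 1 := by
      rw [mul_one_div, div_le_one hM]
      have : (c : ℝ) ≤ M := by exact_mod_cast hc
      linarith
    have h7 : Real.exp ((c : ℝ) * (1 / ((M : ℝ) + 1))) ≤ Real.exp 1 := Real.exp_le_exp.2 h6
    have h8 : Real.exp 1 < 2.7182818286 := Real.exp_one_lt_d9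
    linarith
  have h4 : pc j c * (1 + 1 / ((M : ℝ) + 1)) ^ c ≤ pc j c * 3 :=
    mul_le_mul_of_nonneg_left h3 (pc_pos hj c).le
  unfold pc at h4 ⊢
  linarith

theorem fr_two_odd {j : ℕ} (hj : ¬ 2 ∣ j) (c : ℕ) :
    Fr j (c + 2) = ((c : ℝ) + 1) * j * Fr j c := by
  unfold Fr
  rw [F, if_neg hj]
  push_cast
  ring

theorem fr_two_even {j : ℕ} (hj : 2 ∣ j) (c : ℕ) :
    Fr j (c + 2) = Fr j (c + 1) + ((c : ℝ) + 1) * j * Fr j c := by
  unfold Fr
  rw [F, if_pos hj]
  push_cast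
  ring

theorem fr_nonneg (j c : ℕ) : 0 ≤ Fr j c := Nat.cast_nonneg _

theorem pc_odd {j : ℕ} (hj : 1 ≤ j) (hj2 : ¬ 2 ∣ j) (k : ℕ) :
    pc j (2 * k) ≤ j * ((2 * k : ℕ) + 1 : ℝ) * Fr j (2 * k) := by
  have hj' : (1 : ℝ) ≤ j := by exact_mod_cast hj
  induction k with
  | zero =>
    unfold pc Fr
    simp [F]
    exact hj
  | succ k ih =>
    have h0 : 2 * (k + 1) = 2 * k + 2 := by ring
    rw [h0, pc_succ, pc_succ, fr_two_odd hj2]
    generalize hc : 2 * k = c at ih ⊢
    have hc0 : (0 : ℝ) ≤ (c : ℝ) := Nat.cast_nonneg c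
    have h1 : af j (c + 1) * af j (c + 1 + 1) ≤ j * ((c : ℝ) + 2) := by
      unfold af
      rw [if_neg hj2, add_zero, add_zero, ← Real.sqrt_mul (by positivity)]
      have h2 : (j : ℝ) * ((c : ℝ) + 2) = Real.sqrt (((j : ℝ) * ((c : ℝ) + 2)) ^ 2) :=
        (Real.sqrt_sq (by positivity)).symm
      rw [h2]
      refine Real.sqrt_le_sqrt ?_
      push_cast
      nlinarith [mul_nonneg (mul_nonneg (le_trans zero_le_one hj') (le_trans zero_le_one hj'))
        (by positivity : (0 : ℝ) ≤ (c : ℝ) + 2)]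
    have h3 : pc j c * (af j (c + 1) * af j (c + 1 + 1)) ≤
        (j * ((c : ℝ) + 1) * Fr j c) * (j * ((c : ℝ) + 2)) := by
      refine mul_le_mul ih h1 ?_ ?_
      · exact mul_nonneg (le_trans zero_le_one (af_one hj)) (le_trans zero_le_one (af_one hj))
      · exact mul_nonneg (by positivity) (fr_nonneg j c)
    have h4 : 0 ≤ (j : ℝ) * (((c : ℝ) + 1) * j * Fr j c) :=
      mul_nonneg (by positivity) (mul_nonneg (by positivity) (fr_nonneg j c))
    push_cast
    nlinarith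

theorem pc_even {j : ℕ} (hj : 1 ≤ j) (hj2 : 2 ∣ j) (c : ℕ) :
    pc j c ≤ j * ((c : ℝ) + 1) * Fr j c ∧ pc j (c + 1) ≤ j * ((c : ℝ) + 2) * Fr j (c + 1) := by
  have hj' : (1 : ℝ) ≤ j := by exact_mod_cast hj
  induction c with
  | zero =>
    constructor
    · unfold pc Fr
      simp [F]
      exact hj
    · rw [pc_succ]
      unfold pc af Fr
      rw [if_pos hj2]
      have h1 : Real.sqrt (j : ℝ) ≤ j := by
        rw [Real.sqrt_le_left (by positivity)]
        nlinarith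
      simp only [range_zero, prod_empty, one_mul, F, if_pos hj2]
      push_cast
      rw [zero_add, mul_one]
      linarith
  | succ c ih =>
    obtain ⟨ih1, ih2⟩ := ih
    refine ⟨?_, ?_⟩
    · push_cast
      have : (c : ℝ) + 1 + 1 = (c : ℝ) + 2 := by ring
      rw [this]
      exact ih2
    · have hc0 : (0 : ℝ) ≤ (c : ℝ) := Nat.cast_nonneg c
      rw [fr_two_even hj2]
      obtain ⟨u, hu⟩ : ∃ u : ℝ, u = Real.sqrt (j * ((c : ℝ) + 1)) := ⟨_, rfl⟩
      obtain ⟨v, hv⟩ : ∃ v : ℝ, v = Real.sqrt (j * ((c : ℝ) + 2)) := ⟨_, rfl⟩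
      have hu2 : u ^ 2 = j * ((c : ℝ) + 1) := by
        rw [hu]
        exact Real.sq_sqrt (by positivity)
      have hv2 : v ^ 2 = j * ((c : ℝ) + 2) := by
        rw [hv]
        exact Real.sq_sqrt (by positivity)
      have hu0 : 1 ≤ u := by
        rw [hu, Real.one_le_sqrt]
        nlinarith
      have hv0 : 0 ≤ v := by
        rw [hv]
        exact Real.sqrt_nonneg _
      have huv : u ≤ v := by
        rw [hu, hv]
        refine Real.sqrt_le_sqrt ?_
        nlinarith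
      have ha1 : af j (c + 1) = u + 1 / 2 := by
        unfold af
        rw [if_pos hj2, hu]
        push_cast
        rfl
      have ha2 : af j (c + 1 + 1) = v + 1 / 2 := by
        unfold af
        rw [if_pos hj2, hv]
        push_cast
        ring_nf
      have hp1 : pc j (c + 1) = pc j c * (u + 1 / 2) := by
        rw [pc_succ, ha1]
      have hp2 : pc j (c + 1 + 1) = pc j c * (u + 1 / 2) * (v + 1 / 2) := by
        rw [pc_succ, hp1, ha2]
      have hp0 := pc_pos hj c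
      -- the elementary inequality
      have hd : (v - u) * (v + u) = j := by nlinarith
      have hd1 : v - u ≤ j := by nlinarith
      have hd2 : u * (v - u) ≤ j / 2 := by nlinarith
      have hkey : (u + 1 / 2) * (v + 1 / 2) ≤ (u + 1 / 2) + ((c : ℝ) + 3) * j := by nlinarith
      have h5 : (u + 1 / 2) * (v + 1 / 2) * pc j c ≤
          ((u + 1 / 2) + ((c : ℝ) + 3) * j) * pc j c :=
        mul_le_mul_of_nonneg_right hkey hp0.le
      -- from the induction hypothesis
      have h6 : pc j (c + 1) * ((c : ℝ) + 3) ≤ j * ((c : ℝ) + 2) * Fr j (c + 1) * ((c : ℝ) + 3) :=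
        mul_le_mul_of_nonneg_right ih2 (by positivity)
      have h7 : pc j (c + 1) ≤ j * ((c : ℝ) + 3) * Fr j (c + 1) := by
        have h8 := fr_nonneg j (c + 1)
        have h9 : j * ((c : ℝ) + 2) * Fr j (c + 1) ≤ j * ((c : ℝ) + 3) * Fr j (c + 1) := by
          refine mul_le_mul_of_nonneg_right ?_ h8
          nlinarith
        exact ih2.trans h9
      have h8 : ((c : ℝ) + 3) * j * pc j c ≤ ((c : ℝ) + 3) * j * (j * ((c : ℝ) + 1) * Fr j c) :=
        mul_le_mul_of_nonneg_left ih1 (by positivity)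
      rw [hp2]
      push_cast
      rw [hp1] at h7
      have h9 : j * ((c : ℝ) + 1 + 2) * (Fr j (c + 1) + ((c : ℝ) + 1) * j * Fr j c) =
          j * ((c : ℝ) + 3) * Fr j (c + 1) +
            ((c : ℝ) + 3) * j * (j * ((c : ℝ) + 1) * Fr j c) := by ring
      rw [h9]
      nlinarith

theorem flo (h1 : SqbStmt) : FloStmt := by
  intro M j c hj hc h
  have h2 := fh_le h1 hj hc
  have h3 : pc j c ≤ j * ((c : ℝ) + 1) * Fr j c := by
    by_cases hj2 : 2 ∣ j
    · exact (pc_even hj hj2 c).1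
    · rcases h with h | h
      · exact absurd h hj2
      · obtain ⟨k, rfl⟩ := h
        exact pc_odd hj hj2 k
  nlinarith

end Pool.Agent.UMG.A.H4
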